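import Pool.Agent.R619.TreeFG

/-!
# Finitely generated isotypic algebras need not be isomorphic

The signature has unary operations `t`, `c` and `s l`, where `l` runs over the labels (a colour and
a natural number). In the tree `Nd ℕ Nat.succ col` the operation `t` is the parent, `s l` the child
with label `l`, and the points `a, t a, t (t a), ...` of a chain have no label; the operation `c`
is the identity on the nodes of the first colour and the parent on the others. For the alternating
colouring of the chain the subalgebra generated by `t a` is an elementary substructure with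
the other alternating colouring, and the subalgebra generated by `t (t a)` is an elementary
substructure which is isomorphic to the whole algebra. So the two algebras are elementary
substructures of each other, but an isomorphism would have to respect the lowest point of the chain
and its colour.
-/

set_option autoImplicit false

namespace Pool.Agent.Results.MP_c850b7_lc.NotIsomorphic

open FirstOrder FirstOrder.Language Pool.Agent.R619.Tree

/-- The tuples `a` of `A` and `b` of `B` have the same complete type. -/
def SameType (L : FirstOrder.Language.{0, 0}) {A B : Type} [L.Structure A] [L.Structure B]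
    {n : ℕ} (a : Fin n → A) (b : Fin n → B) : Prop :=
  ∀ φ : L.Formula (Fin n), φ.Realize a ↔ φ.Realize b

/-- `A` and `B` are isotypic: they realise the same complete types of finite tuples. -/
def Isotypic (L : FirstOrder.Language.{0, 0}) (A B : Type) [L.Structure A] [L.Structure B] :
    Prop :=
  ∀ n : ℕ, (∀ a : Fin n → A, ∃ b : Fin n → B, SameType L a b) ∧
    (∀ b : Fin n → B, ∃ a : Fin n → A, SameType L a b)

/-- the alternating colouring -/
def col (k : ℕ) (j : ℕ) : Bool := decide ((j + k) % 2 = 0)

theorem col_succ (k : ℕ) : (fun j => col k (j + 1)) = col (k + 1) := by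
  funext j
  have h : j + 1 + k = j + (k + 1) := by omega
  simp only [col, h]

theorem col_two (k : ℕ) : col (k + 2) = col k := by
  funext j
  simp [col, ← add_assoc]

theorem shift (k n : ℕ) (a : Fin n → Nd ℕ Nat.succ (col (k + 1))) :
    ∃ b : Fin n → Nd ℕ Nat.succ (col k), SameType L a b := by
  have key : ∀ c : ℕ → Bool, (fun j => col k (j + 1)) = c → ∀ a : Fin n → Nd ℕ Nat.succ c,
      ∃ b : Fin n → Nd ℕ Nat.succ (col k), SameType L a b := by
    rintro _ rfl a
    exact ⟨sh (col k) ∘ a, fun φ => (sh_elementary (col k) φ a).symm⟩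
  exact key _ (col_succ k) a

theorem isotypic : Isotypic L (Nd ℕ Nat.succ (col 0)) (Nd ℕ Nat.succ (col 1)) := by
  intro n
  constructor
  · intro a
    have key : ∀ c : ℕ → Bool, col 2 = c → ∀ a : Fin n → Nd ℕ Nat.succ c,
        ∃ b : Fin n → Nd ℕ Nat.succ (col 1), SameType L a b := by
      rintro _ rfl a
      exact shift 1 n a
    exact key _ (col_two 0) a
  · intro b
    obtain ⟨a, ha⟩ := shift 0 n b
    exact ⟨a, fun φ => (ha φ).symm⟩

theorem not_iso : IsEmpty (Nd ℕ Nat.succ (col 0) ≃[L] Nd ℕ Nat.succ (col 1)) := by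
  constructor
  intro f
  have ft : ∀ x, f x.par = (f x).par := fun x => f.map_fun Fn.t (fun _ : Fin 1 => x)
  have fc : ∀ x, f x.cop = (f x).cop := fun x => f.map_fun Fn.c (fun _ : Fin 1 => x)
  have fs : ∀ l x, f (x.chd l) = (f x).chd l := fun l x => f.map_fun (Fn.s l) (fun _ : Fin 1 => x)
  -- nodes without label are mapped to nodes without label
  have h1 : ∀ x, x.w = [] → (f x).w = [] := by
    intro x hx
    by_contra hne
    obtain ⟨w, l, hw⟩ : ∃ w l, (f x).w = w ++ [l] := by
      rcases List.eq_nil_or_concat (f x).w with h | ⟨w, l, h⟩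
      · exact absurd h hne
      · exact ⟨w, l, by simpa using h⟩
    obtain ⟨y, hy⟩ := f.surjective ⟨w, (f x).j⟩
    have h2 : f (y.chd l) = f x := by
      rw [fs, hy]
      exact Nd.ext' hw.symm rfl
    have h3 := f.injective h2
    rw [← h3] at hx
    simp [Nd.chd] at hx
  have h1' : ∀ x, (f x).w = [] → x.w = [] := by
    intro x hx
    by_contra hne
    obtain ⟨w, l, hw⟩ : ∃ w l, x.w = w ++ [l] := by
      rcases List.eq_nil_or_concat x.w with h | ⟨w, l, h⟩
      · exact absurd h hne
      · exact ⟨w, l, by simpa using h⟩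
    have h2 : x = (⟨w, x.j⟩ : Nd ℕ Nat.succ (col 0)).chd l := Nd.ext' hw rfl
    rw [h2, fs] at hx
    simp [Nd.chd] at hx
  -- the lowest point is mapped to the lowest point
  have h4 : f ⟨[], 0⟩ = ⟨[], 0⟩ := by
    have h5 := h1 ⟨[], 0⟩ rfl
    rcases Nat.eq_zero_or_pos (f ⟨[], 0⟩).j with h6 | h6
    · exact Nd.ext' h5 h6
    · exfalso
      obtain ⟨m, hm⟩ : ∃ m, (f ⟨[], 0⟩).j = m + 1 := ⟨(f ⟨[], 0⟩).j - 1, by omega⟩
      obtain ⟨y, hy⟩ := f.surjective ⟨[], m⟩
      have h7 : y.w = [] := h1' y (by rw [hy])
      have h8 : f y.par = f ⟨[], 0⟩ := by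
        rw [ft, hy, par_nil]
        exact Nd.ext' h5.symm hm.symm
      have h9 := f.injective h8
      have h10 : y = ⟨[], y.j⟩ := Nd.ext' h7 rfl
      rw [h10, par_nil] at h9
      have := congrArg Nd.j h9
      simp at this
  have h11 : (⟨[], 0⟩ : Nd ℕ Nat.succ (col 0)).cop = ⟨[], 0⟩ := by
    simp [Nd.cop, Nd.clr, col]
  have h12 : (⟨[], 0⟩ : Nd ℕ Nat.succ (col 1)).cop = ⟨[], 1⟩ := by
    simp [Nd.cop, Nd.clr, Nd.par, col]
  have h13 := fc ⟨[], 0⟩
  rw [h11, h4, h12] at h13
  have := congrArg Nd.j h13
  simp at this

/-- There are a signature with operations only and two finitely generated algebras in it that are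
isotypic but not isomorphic. -/
theorem result : ∃ (L : FirstOrder.Language.{0, 0}) (_ : L.IsAlgebraic) (A B : Type)
    (_ : L.Structure A) (_ : L.Structure B),
    Structure.FG L A ∧ Structure.FG L B ∧ Isotypic L A B ∧ IsEmpty (A ≃[L] B) :=
  ⟨L, inferInstance, Nd ℕ Nat.succ (col 0), Nd ℕ Nat.succ (col 1), inferInstance, inferInstance,
    nd_fg _, nd_fg _, isotypic, not_iso⟩

end Pool.Agent.Results.MP_c850b7_lc.NotIsomorphic
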